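import Pool.Agent.T3H29.EI.Cells
import Pool.Agent.T3H29.EI.Gaps
import Pool.Agent.T3H29.EI.T_DIM
import Pool.Agent.T3H29.EI.T_SEQ

/-!
# Intervals without small gaps between zeta zeros: mean square and power saving

Let `c > 1/2`; a gap `γ_(n+1) - γ_n` between consecutive ordinates of zeros of `ζ` is called small if it is less than `c`
times the mean spacing `2π / log γ_n`. No hypothesis is assumed.

(1) If `[a_i, b_i]` are non-overlapping intervals in `[T, 2T]` which contain no small gap, then the sum of the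
`(b_i - a_i)²` is at most `T^(max(1, 2/c - 2) + ε)`. In particular, for `c = 2/3` the sum of the squares of the distances
between successive small gaps in `[T, 2T]` is at most `T^(1+ε)`.

Let `0 < θ < 1` and `η = max(1, 2/c - 2) - 2θ`, or `η = 0` if this is negative; `η < 1 - θ` if `c > 2 / (3 + θ)`. Call
`t` exceptional if `[t, t + t^θ]` contains no small gap.

(2) The exceptional `t` in `[T, 2T]` are covered by at most `T^(η+ε)` intervals of length `T^θ`.
(3) If `c > 2 / (3 + θ)`, `κ ≥ 1` and `κ η < 1`, then for all `m ≤ M` but at most `M^(1-δ)` the number `m^κ` is not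
exceptional. For example, for almost all `m` the interval `[m², m² + m^(1/2+ε)]` contains two consecutive ordinates at
distance less than `2/3` of the mean spacing.
(4) The set of the `α > 1` such that `α^n` is exceptional for infinitely many `n` has Hausdorff dimension at most
`η / (1 - θ)`, which is less than one for `c > 2 / (3 + θ)`; more generally this is true for `f_n(α)` instead of `α^n`,
if `f_n(x) / x` is positive and nondecreasing and the sum of the `f_n(x)^(-δ)` converges for all `δ > 0`.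

The starting file `AlmostAllIntervals` has the measure `T / (log T)^B` for the exceptional `t` in `[T, 2T]`, and
`StarshapedIntervals` has almost all `α` in (4). Proof of (1) and (2): the method of that file (`Pool/Agent/W192/AW`) with
a mollifier of length `T^ν`, `ν` slightly larger than `1/c - 1`; the variance of the short averages is then bounded by
`(T + T^(2ν)) T^(-θ)` up to logarithms. An interval without small gap, longer than `T^θ`, is up to its ends contained in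
the exceptional set of the scale `θ`, and the intervals are disjoint. (4) is the Hausdorff-Cantelli lemma. (helper29; parts
(3) and (4) with helpers 55 and 8)
-/

set_option autoImplicit false

namespace Pool.Agent.Results.MP_ca0a54_nt.ExceptionalIntervals

open Filter Topology
open scoped Classical

/-- multiplicity of `s` as a zero of the Riemann zeta function (order of vanishing at `s`) -/
noncomputable def zmult (s : ℂ) : ℕ := analyticOrderNatAt riemannZeta s

/-- the number of nontrivial zeros of `ζ` with ordinate in `(0, t]`, with multiplicity -/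
noncomputable def NZ (t : ℝ) : ℕ :=
  ∑ᶠ s ∈ {s : ℂ | riemannZeta s = 0 ∧ 0 < s.re ∧ s.re < 1 ∧ 0 < s.im ∧ s.im ≤ t}, zmult s

/-- for `n ≥ 1`: the `n`-th positive ordinate of a nontrivial zero of `ζ`, the ordinates being
listed in nondecreasing order and repeated according to multiplicity -/
noncomputable def ord (n : ℕ) : ℝ := sInf {t : ℝ | n ≤ NZ t}

/-- `[a, b]` contains a small gap: two consecutive ordinates `γ_n ≤ γ_(n+1)` at distance less than `c` times the mean
spacing `2π / log γ_n` -/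
def SmallGap (c a b : ℝ) : Prop :=
  ∃ n : ℕ, 1 ≤ n ∧ a ≤ ord n ∧ ord n ≤ ord (n + 1) ∧ ord (n + 1) ≤ b ∧
    ord (n + 1) - ord n < c * (2 * Real.pi / Real.log (ord n))

/-- `η = max(1, 2/c - 2) - 2θ`, or zero if this is negative -/
noncomputable def eta (c θ : ℝ) : ℝ := max (max 1 (2 / c - 2) - 2 * θ) 0

lemma not_smallGap {c θ t : ℝ} : ¬ SmallGap c t (t + t ^ θ) ↔ t ∈ T3H29.EI.Exc c θ := by
  constructor
  · intro h h1
    obtain ⟨n, hn, h2, h3, h4⟩ := h1
    exact h ⟨n, hn, h2, SG.ord_mono hn (by omega), h3, h4⟩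
  · intro h h1
    obtain ⟨n, hn, h2, _, h3, h4⟩ := h1
    exact h ⟨n, hn, h2, h3, h4⟩

lemma free_of {c a b : ℝ} (h : ¬ SmallGap c a b) : T3H29.EI.Free c a b := by
  rintro ⟨n, hn, h2, h3, h4⟩
  exact h ⟨n, hn, h2, SG.ord_mono hn (by omega), h3, h4⟩

lemma eta_nonneg (c θ : ℝ) : 0 ≤ eta c θ := le_max_right _ _

lemma eta_lt {c θ : ℝ} (hc : 1 / 2 < c) (hθ : 0 < θ) (hθ1 : θ < 1) (h : 2 / (3 + θ) < c) : eta c θ < 1 - θ := by
  have hc0 : 0 < c := by linarith
  have h1 : 2 / c < 3 + θ := by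
    rw [div_lt_iff₀ (by linarith)] at h
    rw [div_lt_iff₀ hc0]
    linarith
  have h2 : max 1 (2 / c - 2) < 1 + θ := max_lt (by linarith) (by linarith)
  exact max_lt (by linarith) (by linarith)

/-- **Mean square and power saving for the intervals without small gaps.** -/
theorem result (c : ℝ) (hc : 1 / 2 < c) :
    -- (1) non-overlapping intervals without small gap
    (∀ ε : ℝ, 0 < ε → ∃ T0 : ℝ, ∀ T : ℝ, T0 ≤ T → ∀ (I : Finset ℕ) (a b : ℕ → ℝ),
      (∀ i ∈ I, T ≤ a i ∧ a i ≤ b i ∧ b i ≤ 2 * T) →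
      (∀ i ∈ I, ∀ j ∈ I, i ≠ j → b i ≤ a j ∨ b j ≤ a i) →
      (∀ i ∈ I, ¬ SmallGap c (a i) (b i)) →
      ∑ i ∈ I, (b i - a i) ^ 2 ≤ T ^ (max 1 (2 / c - 2) + ε)) ∧
    ∀ θ : ℝ, 0 < θ → θ < 1 →
    -- (2) the exceptional `t` in `[T, 2T]`
    (∀ ε : ℝ, 0 < ε → ∃ T0 : ℝ, ∀ T : ℝ, T0 ≤ T → ∃ F : Finset ℝ, (F.card : ℝ) ≤ T ^ (eta c θ + ε) ∧
      ∀ t : ℝ, T ≤ t → t ≤ 2 * T → ¬ SmallGap c t (t + t ^ θ) → ∃ x ∈ F, x ≤ t ∧ t ≤ x + T ^ θ) ∧
    -- (3) the powers `m^κ`
    (2 / (3 + θ) < c → ∀ κ : ℝ, 1 ≤ κ → κ * eta c θ < 1 → ∃ δ M0 : ℝ, 0 < δ ∧ ∀ M : ℕ, M0 ≤ M →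
      (((Finset.Icc 1 M).filter (fun m : ℕ =>
        ¬ SmallGap c ((m : ℝ) ^ κ) ((m : ℝ) ^ κ + ((m : ℝ) ^ κ) ^ θ))).card : ℝ) ≤ (M : ℝ) ^ (1 - δ)) ∧
    -- (4) the powers `α^n`
    (dimH {α : ℝ | 1 < α ∧ ∃ᶠ n : ℕ in atTop, ¬ SmallGap c (α ^ n) (α ^ n + (α ^ n) ^ θ)} ≤
        ENNReal.ofReal (eta c θ / (1 - θ)) ∧
      (2 / (3 + θ) < c → eta c θ / (1 - θ) < 1)) ∧
    -- (4) in general
    ∀ (a : ℝ) (f : ℕ → ℝ → ℝ), 0 ≤ a →
      (∀ n : ℕ, ∀ x y : ℝ, a < x → x ≤ y → 0 < f n x ∧ f n x / x ≤ f n y / y) →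
      (∀ x : ℝ, a < x → ∀ δ : ℝ, 0 < δ → Summable fun n => (f n x) ^ (-δ)) →
      dimH {α : ℝ | a < α ∧ ∃ᶠ n in atTop, ¬ SmallGap c (f n α) (f n α + (f n α) ^ θ)} ≤
        ENNReal.ofReal (eta c θ / (1 - θ)) := by
  refine ⟨?_, ?_⟩
  · intro ε hε
    obtain ⟨T0, h⟩ := T3H29.EI.mean_square c hc ε hε
    exact ⟨T0, fun T hT I a b h1 h2 h3 => h T hT I a b h1 h2 (fun i hi => free_of (h3 i hi))⟩
  intro θ hθ hθ1
  have hthin := T3H29.EI.thin c θ hc hθ hθ1
  have gen : ∀ (a : ℝ) (f : ℕ → ℝ → ℝ), 0 ≤ a →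
      (∀ n : ℕ, ∀ x y : ℝ, a < x → x ≤ y → 0 < f n x ∧ f n x / x ≤ f n y / y) →
      (∀ x : ℝ, a < x → ∀ δ : ℝ, 0 < δ → Summable fun n => (f n x) ^ (-δ)) →
      dimH {α : ℝ | a < α ∧ ∃ᶠ n in atTop, ¬ SmallGap c (f n α) (f n α + (f n α) ^ θ)} ≤
        ENNReal.ofReal (eta c θ / (1 - θ)) := by
    intro a f ha hf hs
    have h1 := T3H29.EI.t_DIM θ (eta c θ) (T3H29.EI.Exc c θ) hθ hθ1 (eta_nonneg c θ) hthin a f ha hf hs
    simp only [not_smallGap]
    exact h1
  refine ⟨?_, ?_, ⟨?_, ?_⟩, gen⟩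
  · intro ε hε
    obtain ⟨T0, h⟩ := hthin ε hε
    refine ⟨T0, fun T hT => ?_⟩
    obtain ⟨F, hF1, hF2⟩ := h T hT
    exact ⟨F, hF1, fun t h1 h2 h3 => hF2 t (not_smallGap.1 h3) h1 h2⟩
  · intro h κ hκ hκη
    obtain ⟨δ, M0, hδ, hM⟩ := T3H29.EI.t_SEQ θ (eta c θ) (T3H29.EI.Exc c θ) hθ hθ1 (eta_nonneg c θ) hthin κ hκ hκη
      (eta_lt hc hθ hθ1 h)
    refine ⟨δ, M0, hδ, fun M hM1 => ?_⟩
    have h2 := hM M hM1
    simp only [not_smallGap]
    convert h2
  · have h1 := gen 1 (fun n x => x ^ (n + 1)) zero_le_one (by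
      intro n x y hx hxy
      have hx0 : 0 < x := by linarith
      have hy0 : 0 < y := by linarith
      refine ⟨by positivity, ?_⟩
      simp only [pow_succ]
      rw [mul_div_assoc, div_self hx0.ne', mul_one, mul_div_assoc, div_self hy0.ne', mul_one]
      exact pow_le_pow_left₀ hx0.le hxy n) (by
      intro x hx δ hδ
      have hx0 : 0 < x := by linarith
      have h2 : (fun n : ℕ => (x ^ (n + 1)) ^ (-δ)) = fun n : ℕ => (x ^ (-δ)) ^ (n + 1) := by
        funext n
        rw [← Real.rpow_natCast, ← Real.rpow_natCast, ← Real.rpow_mul hx0.le, ← Real.rpow_mul hx0.le]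
        congr 1
        ring
      show Summable (fun n : ℕ => (x ^ (n + 1)) ^ (-δ))
      rw [h2]
      have h3 : x ^ (-δ) < 1 := Real.rpow_lt_one_of_one_lt_of_neg hx (by linarith)
      have h4 : 0 ≤ x ^ (-δ) := by positivity
      exact (summable_nat_add_iff 1).2 (summable_geometric_of_lt_one h4 h3))
    refine le_trans (dimH_mono ?_) h1
    rintro α ⟨h2, h3⟩
    refine ⟨h2, ?_⟩
    rw [← map_add_atTop_eq_nat 1, frequently_map] at h3
    exact h3
  · intro h
    rw [div_lt_one (by linarith)]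
    exact eta_lt hc hθ hθ1 h

end Pool.Agent.Results.MP_ca0a54_nt.ExceptionalIntervals
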