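import Pool.Agent.Z72.MG.Fin

/-!
# MP_ca0a54_nt: at least `T^(1/2)` gaps below `c` times the mean spacing, for every `c > 1/2`

No hypothesis is assumed.

(1) Let `1/2 < c < 1`, `ε > 0`. For all large `T` EVERY interval `[t0, t0 + H]` in `[T, 2T]` of length
`H ≥ T^(1/c - 1 + ε)` contains at least `H T^(-(1/c - 1)/2 - ε)` consecutive pairs of ordinates at distance less than
`c (2π / log T)`.

(2) In particular, for every `c > 1/2` and every `β < (3 - 1/c)/2` there are, for all large `T`, at least `T^β` indices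
`n` with `T ≤ γ_n`, `γ_(n+1) ≤ 2T` and `γ_(n+1) - γ_n < c (2π / log T)`.

(3) So for every `c > 1/2` there are at least `T^(1/2)` of them.

The starting files give one such gap in intervals of this length (`ShortIntervalGaps`), hence `T^(2 - 1/c - ε)` of them in
`[T, 2T]`, `T^(4 - 2/c - ε)` of them (`AlmostAllIntervals`), both exponents tending to `0` for `c → 1/2`, and a positive
proportion for `c ≥ 9/16` (`NineSixteenths`).

Idea of the proof. Let `A` be the Dirichlet polynomial with the coefficients `μ(n)`, `n ≤ N = T^x` without small prime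
factors, `c (1 + x) > 1`. If all zeros in a window of length `H > N` are on the line, simple and more than `c` mean spacings
apart, then a certain quadratic form in `A`, weighted by `|g|²` for any `g`, is negative, while its main term is positive for
`g = 1`. If there are `K` bad zeros one lets `g` run through an orthonormal basis of the trigonometric polynomials that
vanish at all of them. What is lost is the integral of `|A|² k`, where `0 ≤ k ≤ J` and the integral of `k` is `H K` (`J` the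
number of the frequencies). The starting files control this loss by fourth moments of `A`, or by uniform integrability for
special `A`. Here the Halász-Montgomery inequality is used, in the form of Huxley's large value theorem: the part of the
integral of `|A|²` where `|A| ≥ V` is at most `N + H N / V⁴` up to logarithms. With `V² = N^(1/2 + ε)` the loss is
at most `V² H K + o(J H)`, which gives `K ≥ J / V²`.
-/

namespace Pool.Agent.Results.MP_ca0a54_nt.ManySmallGaps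

open Filter

/-- multiplicity of `s` as a zero of the Riemann zeta function (order of vanishing at `s`) -/
noncomputable def zmult (s : ℂ) : ℕ := analyticOrderNatAt riemannZeta s

/-- the number of nontrivial zeros of `ζ` with ordinate in `(0, t]`, with multiplicity -/
noncomputable def NZ (t : ℝ) : ℕ :=
  ∑ᶠ s ∈ {s : ℂ | riemannZeta s = 0 ∧ 0 < s.re ∧ s.re < 1 ∧ 0 < s.im ∧ s.im ≤ t}, zmult s

/-- for `n ≥ 1`: the `n`-th positive ordinate `γ_n` of a nontrivial zero of `ζ`, the ordinates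
being listed in nondecreasing order and repeated according to multiplicity -/
noncomputable def ord (n : ℕ) : ℝ := sInf {t : ℝ | n ≤ NZ t}

/-- the number of the indices `n ≥ 1` with `A ≤ γ_n`, `γ_(n+1) ≤ B` and `γ_(n+1) - γ_n < d` -/
noncomputable def gaps (A B d : ℝ) : ℕ :=
  {n : ℕ | 1 ≤ n ∧ A ≤ ord n ∧ ord (n + 1) ≤ B ∧ ord (n + 1) - ord n < d}.ncard

lemma gaps_finite (A B d : ℝ) :
    {n : ℕ | 1 ≤ n ∧ A ≤ ord n ∧ ord (n + 1) ≤ B ∧ ord (n + 1) - ord n < d}.Finite := by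
  refine (Pool.Agent.W192.PP.gaps_finite (fun _ => True) B).subset ?_
  rintro n ⟨k1, _, k3, _⟩
  exact ⟨k1, trivial, k3⟩

lemma part1 (c ε : ℝ) (hc : 1 / 2 < c) (hc1 : c < 1) (hε : 0 < ε) :
    ∃ T0 : ℝ, ∀ T t0 H : ℝ, T0 ≤ T → T ≤ t0 → t0 + H ≤ 2 * T → T ^ (1 / c - 1 + ε) ≤ H →
      H * T ^ (-((1 / c - 1) / 2) - ε) ≤ (gaps t0 (t0 + H) (c * (2 * Real.pi / Real.log T)) : ℝ) :=
  Pool.Agent.Z72.MG.many c ε hc hc1 hε

lemma part2' (c β : ℝ) (hc : 1 / 2 < c) (hc1 : c < 1) (hβ : β < (3 - 1 / c) / 2) :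
    ∃ T0 : ℝ, ∀ T : ℝ, T0 ≤ T → T ^ β ≤ (gaps T (2 * T) (c * (2 * Real.pi / Real.log T)) : ℝ) := by
  have hc0 : 0 < c := by linarith
  have hi1 : 1 / c < 2 := by
    rw [div_lt_iff₀ hc0]
    linarith
  obtain ⟨ε, hε0, hε1, hε2⟩ : ∃ ε : ℝ, 0 < ε ∧ 1 / c - 1 + ε ≤ 1 ∧ β ≤ 1 + (-((1 / c - 1) / 2) - ε) := by
    refine ⟨min (2 - 1 / c) ((3 - 1 / c) / 2 - β), lt_min (by linarith) (by linarith), ?_, ?_⟩
    · have := min_le_left (2 - 1 / c) ((3 - 1 / c) / 2 - β)
      linarith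
    · have := min_le_right (2 - 1 / c) ((3 - 1 / c) / 2 - β)
      linarith
  obtain ⟨T0, h⟩ := part1 c ε hc hc1 hε0
  refine ⟨max T0 1, fun T hT => ?_⟩
  have hT0 : T0 ≤ T := (le_max_left _ _).trans hT
  have hT1 : 1 ≤ T := (le_max_right _ _).trans hT
  have hTpos : 0 < T := by linarith
  have h1 := h T T T hT0 le_rfl (by linarith) (by
    calc T ^ (1 / c - 1 + ε) ≤ T ^ (1 : ℝ) := Real.rpow_le_rpow_of_exponent_le hT1 hε1
      _ = T := Real.rpow_one T)
  have e : T + T = 2 * T := by ring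
  rw [e] at h1
  refine le_trans ?_ h1
  calc T ^ β ≤ T ^ (1 + (-((1 / c - 1) / 2) - ε)) := Real.rpow_le_rpow_of_exponent_le hT1 hε2
    _ = T * T ^ (-((1 / c - 1) / 2) - ε) := by rw [Real.rpow_add hTpos, Real.rpow_one]

lemma part2 (c β : ℝ) (hc : 1 / 2 < c) (hc1 : c ≤ 1) (hβ : β < (3 - 1 / c) / 2) :
    ∃ T0 : ℝ, ∀ T : ℝ, T0 ≤ T → T ^ β ≤ (gaps T (2 * T) (c * (2 * Real.pi / Real.log T)) : ℝ) := by
  have hc0 : 0 < c := by linarith
  -- a smaller constant
  obtain ⟨c', h1, h2, h3⟩ : ∃ c' : ℝ, 1 / 2 < c' ∧ c' < c ∧ β < (3 - 1 / c') / 2 := by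
    have hcont : Tendsto (fun u : ℝ => (3 - 1 / u) / 2) (nhdsWithin c (Set.Iio c)) (nhds ((3 - 1 / c) / 2)) := by
      apply Tendsto.mono_left _ nhdsWithin_le_nhds
      exact ((tendsto_const_nhds.sub (tendsto_const_nhds.div tendsto_id hc0.ne')).div_const 2)
    have ev := (hcont.eventually (lt_mem_nhds hβ)).and
      ((Ioo_mem_nhdsLT hc : Set.Ioo (1 / 2) c ∈ nhdsWithin c (Set.Iio c)))
    obtain ⟨u, hu1, hu2⟩ := ev.exists
    exact ⟨u, hu2.1, hu2.2, hu1⟩
  obtain ⟨T0, h⟩ := part2' c' β h1 (by linarith) h3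
  refine ⟨max T0 2, fun T hT => ?_⟩
  have hT0 : T0 ≤ T := (le_max_left _ _).trans hT
  have hT2 : 2 ≤ T := (le_max_right _ _).trans hT
  refine (h T hT0).trans ?_
  have hL : 0 < Real.log T := Real.log_pos (by linarith)
  have hsub : {n : ℕ | 1 ≤ n ∧ T ≤ ord n ∧ ord (n + 1) ≤ 2 * T ∧
      ord (n + 1) - ord n < c' * (2 * Real.pi / Real.log T)} ⊆
      {n : ℕ | 1 ≤ n ∧ T ≤ ord n ∧ ord (n + 1) ≤ 2 * T ∧
      ord (n + 1) - ord n < c * (2 * Real.pi / Real.log T)} := by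
    rintro n ⟨k1, k2, k3, k4⟩
    refine ⟨k1, k2, k3, k4.trans_le ?_⟩
    have := Real.pi_pos
    exact mul_le_mul_of_nonneg_right h2.le (by positivity)
  have := Set.ncard_le_ncard hsub (gaps_finite _ _ _)
  unfold gaps
  exact_mod_cast this

lemma part3 (c : ℝ) (hc : 1 / 2 < c) :
    ∃ T0 : ℝ, ∀ T : ℝ, T0 ≤ T → T ^ (1 / 2 : ℝ) ≤ (gaps T (2 * T) (c * (2 * Real.pi / Real.log T)) : ℝ) := by
  have hc0 : 0 < c := by linarith
  obtain ⟨c', h1, h2, h3⟩ : ∃ c' : ℝ, 1 / 2 < c' ∧ c' ≤ c ∧ c' ≤ 1 :=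
    ⟨min c 1, lt_min hc (by norm_num), min_le_left _ _, min_le_right _ _⟩
  have hc'0 : 0 < c' := by linarith
  have hi1 : 1 / c' < 2 := by
    rw [div_lt_iff₀ hc'0]
    linarith
  obtain ⟨T0, h⟩ := part2 c' (1 / 2) h1 h3 (by linarith)
  refine ⟨max T0 2, fun T hT => ?_⟩
  have hT0 : T0 ≤ T := (le_max_left _ _).trans hT
  have hT2 : 2 ≤ T := (le_max_right _ _).trans hT
  refine (h T hT0).trans ?_
  have hL : 0 < Real.log T := Real.log_pos (by linarith)
  have hsub : {n : ℕ | 1 ≤ n ∧ T ≤ ord n ∧ ord (n + 1) ≤ 2 * T ∧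
      ord (n + 1) - ord n < c' * (2 * Real.pi / Real.log T)} ⊆
      {n : ℕ | 1 ≤ n ∧ T ≤ ord n ∧ ord (n + 1) ≤ 2 * T ∧
      ord (n + 1) - ord n < c * (2 * Real.pi / Real.log T)} := by
    rintro n ⟨k1, k2, k3, k4⟩
    refine ⟨k1, k2, k3, k4.trans_le ?_⟩
    have := Real.pi_pos
    exact mul_le_mul_of_nonneg_right h2 (by positivity)
  have := Set.ncard_le_ncard hsub (gaps_finite _ _ _)
  unfold gaps
  exact_mod_cast this

/-- **Many small gaps, for every constant above one half.** (1) If `1/2 < c < 1` and `ε > 0` then for all large `T`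
every interval `[t0, t0 + H]` inside `[T, 2T]` with `H ≥ T^(1/c - 1 + ε)` contains at least `H T^(-(1/c - 1)/2 - ε)`
gaps below `c (2π / log T)`. (2) If `1/2 < c ≤ 1` and `β < (3 - 1/c)/2` then for all large `T` there are at least `T^β`
such gaps in `[T, 2T]`. (3) For every `c > 1/2` and all large `T` there are at least `T^(1/2)` such gaps. -/
theorem result :
    (∀ c ε : ℝ, 1 / 2 < c → c < 1 → 0 < ε → ∃ T0 : ℝ, ∀ T t0 H : ℝ,
      T0 ≤ T → T ≤ t0 → t0 + H ≤ 2 * T → T ^ (1 / c - 1 + ε) ≤ H →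
      H * T ^ (-((1 / c - 1) / 2) - ε) ≤ (gaps t0 (t0 + H) (c * (2 * Real.pi / Real.log T)) : ℝ)) ∧
    (∀ c β : ℝ, 1 / 2 < c → c ≤ 1 → β < (3 - 1 / c) / 2 → ∃ T0 : ℝ, ∀ T : ℝ, T0 ≤ T →
      T ^ β ≤ (gaps T (2 * T) (c * (2 * Real.pi / Real.log T)) : ℝ)) ∧
    (∀ c : ℝ, 1 / 2 < c → ∃ T0 : ℝ, ∀ T : ℝ, T0 ≤ T →
      T ^ (1 / 2 : ℝ) ≤ (gaps T (2 * T) (c * (2 * Real.pi / Real.log T)) : ℝ)) :=
  ⟨fun c ε hc hc1 hε => part1 c ε hc hc1 hε, fun c β hc hc1 hβ => part2 c β hc hc1 hβ, fun c hc => part3 c hc⟩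

end Pool.Agent.Results.MP_ca0a54_nt.ManySmallGaps
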